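import Pool.Agent.H71.CQ.Basic

/-!
# CLD. Countably many pieces up to twisted isomorphism
-/

set_option autoImplicit false

open Set

namespace Pool.Agent.H73.CQ

open Pool.Agent.H71.CQ

/-- pieces over the algebraic part of `e0` -/
structure Pc {L : Type} (N : NF L) (e0 : ℕ → ℕ → L) where
  e : ℕ → ℕ → L
  g : {x // Wp N e0 x} ≃ {x // Wp N e x}
  x : ℕ
  m : Mem N e
  s : ∀ q, (Srt e0 q).Infinite ↔ (Srt e q).Infinite
  w : WIso N e0 e g
  hx : ¬ Wp N e x

variable {L : Type} {N : NF L} {e0 : ℕ → ℕ → L}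

/-- labels of properties are realised -/
theorem hs_rl (a : Pc N e0) {θ : Option {x // Wp N e0 x} × L} (h : Hs N a.g a.x θ) :
    θ.2 ∈ Rl N := by
  obtain ⟨o, l⟩ := θ
  rcases o with _ | k
  · obtain ⟨y, _, hy⟩ := h
    rw [← hy]
    exact rl_of_mem a.m y y
  · obtain ⟨y, _, hy⟩ := h
    rw [← hy]
    exact rl_of_mem a.m _ y

/-- a robust sequence of pieces -/
theorem rob_of_not (hSEL : T_SEL) (hR : (Rl N).Countable) (h0 : Mem N e0)
    (hn : ¬ ∃ D : Set ((ℕ → ℕ → L) × ℕ), D.Countable ∧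
      (∀ d ∈ D, Mem N d.1 ∧ Sim N e0 d.1 ∧ ¬ Wp N d.1 d.2) ∧
      ∀ (e : ℕ → ℕ → L) (x : ℕ), Mem N e → Sim N e0 e → ¬ Wp N e x → ∃ d ∈ D, TwI N d.1 e d.2 x) :
    ∃ t : ℕ → Pc N e0, Rob N e0 (fun j => (t j).e) (fun j => (t j).g) (fun j => (t j).x) := by
  have : Countable (Rl N) := hR.to_subtype
  have h1 : ¬ ∃ D : Set (Pc N e0), D.Countable ∧
      ∀ a : Pc N e0, ∃ d ∈ D, TwI N a.e d.e a.x d.x := by
    rintro ⟨D, hD, hc⟩
    refine hn ⟨(fun d : Pc N e0 => (d.e, d.x)) '' D, hD.image _, ?_, ?_⟩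
    · rintro _ ⟨d, _, rfl⟩
      exact ⟨d.m, ⟨d.s, d.g, d.w⟩, d.hx⟩
    · intro e x hm hs hx
      obtain ⟨hs1, g, hg⟩ := hs
      obtain ⟨d, hd, hT⟩ := hc ⟨e, g, x, hm, hs1, hg, hx⟩
      exact ⟨(d.e, d.x), ⟨d, hd, rfl⟩, hT.symm⟩
  obtain ⟨t, ht1, ht2⟩ := hSEL (Pc N e0) (Option {x // Wp N e0 x} × Rl N)
    (fun a b => TwI N a.e b.e a.x b.x) (fun a θ => Hs N a.g a.x (θ.1, θ.2.1))
    (fun a => twI_refl _) (fun a b h => h.symm) (fun a b c h h' => h.trans h') h1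
  refine ⟨t, ⟨h0, fun j => (t j).m, fun j => (t j).s, fun j => (t j).w, fun j => (t j).hx,
    ht1, ?_⟩⟩
  rintro i ⟨o, l⟩ hθ
  have hl : l ∈ Rl N := hs_rl (t i) hθ
  exact ht2 i (o, ⟨l, hl⟩) hθ

/-- membership in the coded substructure is measurable -/
theorem meas_as (e : ℕ → ℕ → ℕ → L) (g : ∀ j, {x // Wp N e0 x} ≃ {x // Wp N (e j) x})
    (x : ℕ → ℕ) (a : SV N e0 (fun j : ℕ × ℕ => e j.1)) :
    MeasurableSet {u : ℕ → Bool | a ∈ As N e0 e g x {m | u m = true}} := by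
  rcases a with k | v
  · have h : {u : ℕ → Bool | (Sum.inl k : SV N e0 (fun j : ℕ × ℕ => e j.1)) ∈
        As N e0 e g x {m | u m = true}} = univ := by
      ext u
      simp only [mem_ofPred_eq, mem_univ, iff_true]
      exact trivial
    rw [h]
    exact MeasurableSet.univ
  · have h : {u : ℕ → Bool | (Sum.inr v : SV N e0 (fun j : ℕ × ℕ => e j.1)) ∈
        As N e0 e g x {m | u m = true}} =
        ⋂ m : ℕ, ({u : ℕ → Bool | u m = true} ∪ {_u : ℕ → Bool |
          PI N (e m) (e v.1.1) ((g m).symm.trans (g v.1.1)) (x m) v.2 →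
            v.1 = (m, 0) ∧ Cm N (e m) (x m) v.2}) := by
      ext u
      simp only [mem_iInter, mem_union, mem_ofPred_eq]
      constructor
      · intro hu m
        by_cases hm : u m = true
        · exact Or.inl hm
        · exact Or.inr (hu m hm)
      · intro hu m hm
        rcases hu m with h1 | h1
        · exact absurd h1 hm
        · exact h1
    rw [h]
    refine MeasurableSet.iInter fun m => MeasurableSet.union ?_ (MeasurableSet.const _)
    have h2 : Measurable fun u : ℕ → Bool => u m := measurable_pi_apply m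
    exact h2 (measurableSet_singleton true)

/-- the coded substructures are infinite -/
theorem inf_as (hCLA : T_CLA) {e : ℕ → ℕ → ℕ → L}
    {g : ∀ j, {x // Wp N e0 x} ≃ {x // Wp N (e j) x}} {x : ℕ → ℕ} (hR : Rob N e0 e g x)
    (S : Set ℕ) : (As N e0 e g x S).Infinite := by
  have h := hCLA L N e0 e g x hR S 0 (x 0) (hR.hx 0) (none, e 0 (x 0) (x 0))
    ⟨x 0, cm_refl _, rfl⟩
  intro hf
  refine h ?_
  have h1 : ((fun a : SV N e0 (fun j : ℕ × ℕ => e j.1) =>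
      Sum.elim (fun _ => ((0, 0) : ℕ × ℕ)) (fun v => v.1) a) '' (As N e0 e g x S)).Finite :=
    hf.image _
  refine h1.subset ?_
  rintro v ⟨z, hz, _, hA⟩
  exact ⟨_, hA, rfl⟩

theorem pf_CLD (_hCTV : T_CTV) (hSUB : T_SUB) (hRLC : T_RLC) (hSEL : T_SEL) (hCLM : T_CLM)
    (hCLI : T_CLI) (hCLA : T_CLA) : T_CLD := by
  intro L _ _ N hN hP hF hU e0 h0
  by_contra hn
  obtain ⟨t, hR⟩ := rob_of_not hSEL (hRLC L N hN hP) h0 hn
  apply hP
  obtain ⟨F, hFm, hFi⟩ := hSUB L (ℕ → Bool) (SV N e0 (fun j : ℕ × ℕ => (t j.1).e))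
    (Big N e0 (fun j => (t j).e) (fun j => (t j).g))
    (fun u => As N e0 (fun j => (t j).e) (fun j => (t j).g) (fun j => (t j).x) {m | u m = true})
    (fun a => meas_as (N := N) (e0 := e0) (fun j => (t j).e) (fun j => (t j).g)
      (fun j => (t j).x) a) (fun u => inf_as hCLA hR _)
  refine ⟨F, hFm, fun u => ?_, fun u v huv hi => huv ?_⟩
  · obtain ⟨f, hf⟩ := (hFi u).symm
    exact hf.mem (hCLM L N hN.toSep hF hU e0 _ _ _ hR {m | u m = true}).1
  · have h1 := hCLI L N hN.toSep hF hU e0 _ _ _ hR {m | u m = true} {m | v m = true}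
      (((hFi u).symm.trans hi).trans (hFi v))
    funext m
    have h2 : u m = true ↔ v m = true := by
      have h3 := Set.ext_iff.1 h1 m
      exact h3
    exact Bool.eq_iff_iff.2 h2

end Pool.Agent.H73.CQ
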